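import Pool.Agent.Helper92.Ru.GoalsR

/-! R8: height of the determinant of mixed Hasse derivatives. -/

set_option autoImplicit false

open MvPolynomial

namespace Pool.Agent.Helper15.Ru

open Pool.Agent.Helper92.Ru

section gen

variable {k : Type} [Field k] {σ : Type} (w : AbsoluteValue k ℝ)

/-- sum norm -/
noncomputable def N1 (f : MvPolynomial σ k) : ℝ := ∑ e ∈ f.support, w (coeff e f)

lemma N1_eq (f : MvPolynomial σ k) (S : Finset (σ →₀ ℕ)) (h : f.support ⊆ S) :
    N1 w f = ∑ e ∈ S, w (coeff e f) :=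
  Finset.sum_subset h (by intro e _ he; simp [notMem_support_iff.mp he])

lemma N1_nonneg (f : MvPolynomial σ k) : 0 ≤ N1 w f :=
  Finset.sum_nonneg fun _ _ => w.nonneg _

lemma N1_zero : N1 w (0 : MvPolynomial σ k) = 0 := by simp [N1]

lemma coeff_le_N1 (f : MvPolynomial σ k) (e : σ →₀ ℕ) : w (coeff e f) ≤ N1 w f := by
  by_cases h : e ∈ f.support
  · exact Finset.single_le_sum (f := fun e => w (coeff e f)) (fun _ _ => w.nonneg _) h
  · rw [notMem_support_iff.mp h]
    simpa using N1_nonneg w f

lemma N1_add (f g : MvPolynomial σ k) : N1 w (f + g) ≤ N1 w f + N1 w g := by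
  classical
  rw [N1_eq w (f + g) (f.support ∪ g.support) support_add,
    N1_eq w f (f.support ∪ g.support) Finset.subset_union_left,
    N1_eq w g (f.support ∪ g.support) Finset.subset_union_right, ← Finset.sum_add_distrib]
  refine Finset.sum_le_sum fun e _ => ?_
  rw [coeff_add]
  exact w.add_le _ _

lemma N1_sum {ι : Type} (s : Finset ι) (f : ι → MvPolynomial σ k) :
    N1 w (∑ i ∈ s, f i) ≤ ∑ i ∈ s, N1 w (f i) := by
  classical
  induction s using Finset.induction with
  | empty => simp [N1_zero]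
  | insert a s ha ih =>
    rw [Finset.sum_insert ha, Finset.sum_insert ha]
    exact (N1_add w _ _).trans (by linarith)

lemma N1_monomial_mul (a : σ →₀ ℕ) (c : k) (g : MvPolynomial σ k) :
    N1 w (monomial a c * g) ≤ w c * N1 w g := by
  classical
  have hs : (monomial a c * g).support ⊆ g.support.image (fun e => a + e) := by
    intro e he
    have := support_mul (monomial a c) g he
    rw [Finset.mem_add] at this
    obtain ⟨x, hx, y, hy, rfl⟩ := this
    have hx' := support_monomial_subset hx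
    rw [Finset.mem_singleton] at hx'
    subst hx'
    exact Finset.mem_image_of_mem _ hy
  rw [N1_eq w _ _ hs, Finset.sum_image (by intro x _ y _ h; exact add_left_cancel h), N1,
    Finset.mul_sum]
  refine Finset.sum_le_sum fun e _ => ?_
  rw [add_comm a e, coeff_monomial_mul']
  split_ifs with h
  · rw [add_tsub_cancel_right, map_mul]
  · exact absurd (le_add_self) h

lemma N1_mul (f g : MvPolynomial σ k) : N1 w (f * g) ≤ N1 w f * N1 w g := by
  classical
  conv_lhs => rw [f.as_sum, Finset.sum_mul]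
  refine (N1_sum w _ _).trans ?_
  rw [N1, Finset.sum_mul]
  exact Finset.sum_le_sum fun e _ => N1_monomial_mul w _ _ _

lemma N1_one : N1 w (1 : MvPolynomial σ k) ≤ 1 := by
  classical
  have : (1 : MvPolynomial σ k).support ⊆ {0} := by
    intro e he
    rw [mem_support_iff, coeff_one] at he
    rw [Finset.mem_singleton]
    by_contra h
    exact he (if_neg (Ne.symm h))
  rw [N1_eq w _ _ this]
  simp

lemma N1_prod {ι : Type} (s : Finset ι) (f : ι → MvPolynomial σ k) :
    N1 w (∏ i ∈ s, f i) ≤ ∏ i ∈ s, N1 w (f i) := by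
  classical
  induction s using Finset.induction with
  | empty => simpa using N1_one w
  | insert a s ha ih =>
    rw [Finset.prod_insert ha, Finset.prod_insert ha]
    exact (N1_mul w _ _).trans (mul_le_mul_of_nonneg_left ih (N1_nonneg w _))

lemma N1_neg (f : MvPolynomial σ k) : N1 w (-f) = N1 w f := by
  rw [N1, N1, support_neg]
  refine Finset.sum_congr rfl fun e _ => ?_
  rw [coeff_neg, w.map_neg]

lemma N1_units (u : ℤˣ) (f : MvPolynomial σ k) : N1 w (u • f) = N1 w f := by
  rcases Int.units_eq_one_or u with rfl | rfl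
  · simp
  · rw [Units.neg_smul, one_smul, N1_neg]

lemma N1_det (s : ℕ) (M : Matrix (Fin s) (Fin s) (MvPolynomial σ k)) (B : ℝ)
    (hM : ∀ i j, N1 w (M i j) ≤ B) : N1 w M.det ≤ s.factorial * B ^ s := by
  classical
  rw [Matrix.det_apply]
  refine (N1_sum w _ _).trans ?_
  have : ∀ τ ∈ (Finset.univ : Finset (Equiv.Perm (Fin s))),
      N1 w (Equiv.Perm.sign τ • ∏ i, M (τ i) i) ≤ B ^ s := by
    intro τ _
    rw [N1_units]
    refine (N1_prod w _ _).trans ?_
    calc ∏ i, N1 w (M (τ i) i) ≤ ∏ _i : Fin s, B :=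
          Finset.prod_le_prod (fun _ _ => N1_nonneg w _) fun i _ => hM _ _
      _ = B ^ s := by simp
  refine (Finset.sum_le_sum this).trans ?_
  rw [Finset.sum_const, Finset.card_univ, Fintype.card_perm, Fintype.card_fin, nsmul_eq_mul]

/-! ultrametric part -/

variable {w}

lemma sum_le_of (hw : IsNonarchimedean w) {ι : Type} (s : Finset ι) (f : ι → k) (B : ℝ)
    (hB : 0 ≤ B) (h : ∀ i ∈ s, w (f i) ≤ B) : w (∑ i ∈ s, f i) ≤ B := by
  classical
  induction s using Finset.induction with
  | empty => simpa using hB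
  | insert a s ha ih =>
    rw [Finset.sum_insert ha]
    exact (hw _ _).trans (max_le (h a (Finset.mem_insert_self _ _))
      (ih fun i hi => h i (Finset.mem_insert_of_mem hi)))

variable (w) in
/-- all coefficients are at most `B` -/
def Bd (f : MvPolynomial σ k) (B : ℝ) : Prop := ∀ e, w (coeff e f) ≤ B

lemma Bd_mul (hw : IsNonarchimedean w) (f g : MvPolynomial σ k) (A B : ℝ) (hA : 0 ≤ A)
    (hB : 0 ≤ B) (hf : Bd w f A) (hg : Bd w g B) : Bd w (f * g) (A * B) := by
  classical
  intro e
  rw [coeff_mul]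
  refine sum_le_of hw _ _ _ (mul_nonneg hA hB) fun x _ => ?_
  rw [map_mul]
  exact mul_le_mul (hf _) (hg _) (w.nonneg _) hA

lemma Bd_prod (hw : IsNonarchimedean w) {ι : Type} (s : Finset ι) (f : ι → MvPolynomial σ k)
    (B : ℝ) (hB : 0 ≤ B) (h : ∀ i ∈ s, Bd w (f i) B) : Bd w (∏ i ∈ s, f i) (B ^ s.card) := by
  classical
  induction s using Finset.induction with
  | empty =>
    intro e
    rw [Finset.prod_empty, Finset.card_empty, pow_zero, coeff_one]
    split_ifs <;> simp
  | insert a s ha ih =>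
    rw [Finset.prod_insert ha, Finset.card_insert_of_notMem ha, pow_succ, mul_comm (B ^ _)]
    exact Bd_mul hw _ _ _ _ hB (pow_nonneg hB _) (h a (Finset.mem_insert_self _ _))
      (ih fun i hi => h i (Finset.mem_insert_of_mem hi))

lemma Bd_det (hw : IsNonarchimedean w) (s : ℕ) (M : Matrix (Fin s) (Fin s) (MvPolynomial σ k))
    (B : ℝ) (hB : 0 ≤ B) (hM : ∀ i j, Bd w (M i j) B) : Bd w M.det (B ^ s) := by
  classical
  intro e
  rw [Matrix.det_apply, coeff_sum]
  refine sum_le_of hw _ _ _ (pow_nonneg hB _) fun τ _ => ?_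
  have h := Bd_prod hw Finset.univ (fun i => M (τ i) i) B hB (fun i _ => hM _ _) e
  rw [Finset.card_univ, Fintype.card_fin] at h
  rcases Int.units_eq_one_or (Equiv.Perm.sign τ) with h1 | h1
  · rw [h1, one_smul]; exact h
  · rw [h1, Units.neg_smul, one_smul, coeff_neg, w.map_neg]; exact h

end gen

/-- coefficient bound for Hasse derivatives, archimedean -/
lemma hasse_arch {k : Type} [Field k] [CharZero k] {σ : Type} [Fintype σ] [DecidableEq σ]
    (w : AbsoluteValue k ℝ) (hb : HasseBasic) (R : ℕ) (p : MvPolynomial σ k)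
    (hR : ∀ h, p.degreeOf h ≤ R) (B : ℝ) (hB : 0 ≤ B) (hp : ∀ e, w (coeff e p) ≤ B)
    (μ : σ →₀ ℕ) : N1 w (hasse μ p) ≤ 2 ^ (2 * Fintype.card σ * R) * B := by
  classical
  have h1 : ∀ a : σ →₀ ℕ, coeff a (hasse μ p) ≠ 0 → ∀ h, (a + μ) h ≤ R := by
    intro a ha h
    rw [(hb k σ μ p).1 a] at ha
    have h2 : (a + μ) ∈ p.support := mem_support_iff.mpr (right_ne_zero_of_mul ha)
    exact (monomial_le_degreeOf h h2).trans (hR h)
  set S : Finset (σ →₀ ℕ) := (Fintype.piFinset (fun _ : σ => Finset.range (R + 1))).image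
    (fun f => Finsupp.equivFunOnFinite.symm f) with hS
  have hsub : (hasse μ p).support ⊆ S := by
    intro a ha
    rw [hS, Finset.mem_image]
    refine ⟨fun i => a i, ?_, ?_⟩
    · rw [Fintype.mem_piFinset]
      intro i
      rw [Finset.mem_range]
      have := h1 a (mem_support_iff.mp ha) i
      rw [Finsupp.add_apply] at this
      omega
    · ext i; simp
  have hcard : S.card ≤ (R + 1) ^ Fintype.card σ := by
    refine Finset.card_image_le.trans ?_
    rw [Fintype.card_piFinset]
    simp
  rw [N1_eq w _ S hsub]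
  have hterm : ∀ a ∈ S, w (coeff a (hasse μ p)) ≤ 2 ^ (Fintype.card σ * R) * B := by
    intro a _
    by_cases ha : coeff a (hasse μ p) = 0
    · rw [ha, map_zero]; positivity
    have h2 := h1 a ha
    rw [(hb k σ μ p).1 a, map_mul]
    refine mul_le_mul ?_ (hp _) (w.nonneg _) (by positivity)
    refine (w.apply_nat_le_self _).trans ?_
    have h3 : ∏ i, (a i + μ i).choose (μ i) ≤ 2 ^ (Fintype.card σ * R) := by
      calc ∏ i, (a i + μ i).choose (μ i) ≤ ∏ _i : σ, 2 ^ R := by
            refine Finset.prod_le_prod' fun i _ => ?_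
            refine (Nat.choose_le_two_pow _ _).trans ?_
            exact Nat.pow_le_pow_right (by norm_num) (by simpa using h2 i)
        _ = 2 ^ (Fintype.card σ * R) := by
            rw [Finset.prod_const, Finset.card_univ, ← pow_mul, mul_comm]
    exact_mod_cast h3
  refine (Finset.sum_le_sum hterm).trans ?_
  rw [Finset.sum_const, nsmul_eq_mul, ← mul_assoc]
  refine mul_le_mul_of_nonneg_right ?_ hB
  have h4 : S.card ≤ 2 ^ (Fintype.card σ * R) := by
    refine hcard.trans ?_
    rw [mul_comm, pow_mul]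
    exact Nat.pow_le_pow_left (Nat.lt_two_pow_self (n := R)) _
  calc (S.card : ℝ) * 2 ^ (Fintype.card σ * R)
      ≤ 2 ^ (Fintype.card σ * R) * 2 ^ (Fintype.card σ * R) :=
        mul_le_mul_of_nonneg_right (by exact_mod_cast h4) (by positivity)
    _ = 2 ^ (2 * Fintype.card σ * R) := by rw [← pow_add]; congr 1; ring

theorem detHeight : HasseBasic → HeightLocal → DetHeight := by
  intro hb hl k _ _ σ _ _ s R p M hp hR1 hs hR
  classical
  set D := (Matrix.of (fun i j => hasse (M i j) p)).det with hD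
  have hy : (fun e : p.support => coeff e.1 p) ≠ 0 := by
    obtain ⟨e, he⟩ := ne_zero_iff.mp hp
    intro h
    exact he (congrFun h ⟨e, mem_support_iff.mpr he⟩)
  have hsup : ∀ (w : AbsoluteValue k ℝ) (e : σ →₀ ℕ),
      w (coeff e p) ≤ ⨆ j : p.support, w (coeff j.1 p) := by
    intro w e
    by_cases he : e ∈ p.support
    · exact Finite.le_ciSup_of_le (⟨e, he⟩ : p.support) le_rfl
    · rw [notMem_support_iff.mp he, map_zero]
      exact Real.iSup_nonneg fun j => w.nonneg _
  have hc : (2 : ℝ) ^ ((2 * Fintype.card σ + 1) * R * s * Module.finrank ℚ k) =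
      (2 ^ ((2 * Fintype.card σ + 1) * R * s)) ^ (Module.finrank ℚ k) := by
    rw [← pow_mul]
  rw [hc]
  refine hl k D.support p.support (fun e => coeff e.1 D) (fun e => coeff e.1 p) s
    (2 ^ ((2 * Fintype.card σ + 1) * R * s)) hy (one_le_pow₀ (by norm_num)) ?_ ?_
  · intro v e
    set B : ℝ := ⨆ j : p.support, v (coeff j.1 p) with hBdef
    have hB0 : 0 ≤ B := Real.iSup_nonneg fun j => v.1.nonneg _
    have h1 := fun i j => hasse_arch v.1 hb R p hR B hB0 (hsup v.1) (M i j)
    have h2 : v (coeff e.1 D) ≤ s.factorial * (2 ^ (2 * Fintype.card σ * R) * B) ^ s :=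
      (coeff_le_N1 v.1 D e.1).trans (N1_det v.1 s _ _ h1)
    refine h2.trans ?_
    rw [mul_pow, ← mul_assoc]
    refine mul_le_mul_of_nonneg_right ?_ (pow_nonneg hB0 _)
    have h3 : s.factorial ≤ 2 ^ (R * s) := by
      refine (Nat.factorial_le_pow s).trans ?_
      rw [pow_mul]
      refine Nat.pow_le_pow_left (hs.trans ?_) _
      exact Nat.lt_two_pow_self (n := R)
    calc (s.factorial : ℝ) * (2 ^ (2 * Fintype.card σ * R)) ^ s
        ≤ 2 ^ (R * s) * (2 ^ (2 * Fintype.card σ * R)) ^ s :=
          mul_le_mul_of_nonneg_right (by exact_mod_cast h3) (by positivity)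
      _ = 2 ^ ((2 * Fintype.card σ + 1) * R * s) := by
          rw [← pow_mul, ← pow_add]; congr 1; ring
  · intro v e
    set B : ℝ := ⨆ j : p.support, v (coeff j.1 p) with hBdef
    have hB0 : 0 ≤ B := Real.iSup_nonneg fun j => v.1.nonneg _
    have hna : IsNonarchimedean v.1 := fun x y => v.add_le x y
    refine Bd_det hna s _ B hB0 (fun i j a => ?_) e.1
    show v.1 (coeff a (hasse (M i j) p)) ≤ B
    rw [(hb k σ (M i j) p).1 a, map_mul]
    calc v.1 ((∏ i', (a i' + M i j i').choose (M i j i') : ℕ) : k) * v.1 (coeff (a + M i j) p)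
        ≤ 1 * B := mul_le_mul (hna.apply_natCast_le_one) (hsup v.1 _) (v.1.nonneg _) (by norm_num)
      _ = B := one_mul _

end Pool.Agent.Helper15.Ru
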