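import Pool.Agent.Helper92.Ru.GoalsR

/-! R13: base case of Roth's lemma. -/

set_option autoImplicit false

open MvPolynomial

namespace Pool.Agent.Helper15.Ru

open Pool.Agent.Helper92.Ru

theorem rothBase : RothBase := by
  intro hdiv k _ _ σ hσ
  set D : ℝ := (Module.finrank ℚ k : ℝ) with hD
  have hl2 : 0 < Real.log 2 := Real.log_pos (by norm_num)
  have hD0 : 0 ≤ D := Nat.cast_nonneg _
  have hE : 0 < 1 + D * Real.log 2 := by positivity
  refine ⟨1, (1 + D * Real.log 2) / σ, one_pos, le_rfl, div_pos hE hσ, ?_⟩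
  intro r R ξ p θ hp hr hdeg _ hC hind
  by_contra hlt
  rw [not_le] at hlt
  have hθ : 0 < θ := hσ.trans hlt
  have hr0 : (1 : ℝ) ≤ r 0 := by exact_mod_cast (hr 0).1
  have hrR : (r 0 : ℝ) ≤ R := by exact_mod_cast (hr 0).2
  have hr0' : (0 : ℝ) < r 0 := by linarith
  set L := Real.log (PH p) with hL
  have hPH : 1 ≤ PH p := Height.one_le_mulHeight _
  have hL0 : 0 ≤ L := Real.log_nonneg hPH
  set h := Height.logHeight₁ (ξ 0) with hh
  have hξ : ξ = fun _ => ξ 0 := by funext i; rw [Subsingleton.elim i 0]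
  have h1 : ∀ e ∈ (shiftP (fun _ => ξ 0) p).support, ⌈θ * r 0⌉₊ ≤ e 0 := by
    intro e he
    rw [Nat.ceil_le]
    have := hind e (by rw [hξ]; exact he)
    rw [Fin.sum_univ_one, le_div_iff₀ hr0'] at this
    exact this
  have h2 := hdiv k (ξ 0) ⌈θ * r 0⌉₊ (r 0) p hp (hdeg 0) h1
  have hm : 1 ≤ Height.mulHeight₁ (ξ 0) := Height.one_le_mulHeight₁ _
  have h3 := Real.log_le_log (by positivity) h2
  rw [Real.log_pow, Real.log_mul (by positivity) (by positivity), Real.log_pow] at h3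
  push_cast at h3
  rw [← hL, ← hD] at h3
  have hh' : Real.log (Height.mulHeight₁ (ξ 0)) = h := rfl
  rw [hh'] at h3
  have hh0 : 0 ≤ h := Real.log_nonneg hm
  have h4 : θ * r 0 ≤ (⌈θ * r 0⌉₊ : ℝ) := Nat.le_ceil _
  have h5 := hC 0
  rw [← hh] at h5
  have h6 : θ * r 0 * h ≤ r 0 * D * Real.log 2 + L :=
    (mul_le_mul_of_nonneg_right h4 hh0).trans h3
  have h7 : r 0 * D * Real.log 2 + L ≤ (1 + D * Real.log 2) * (L + R) := by
    have a1 : r 0 * D * Real.log 2 ≤ R * D * Real.log 2 := by gcongr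
    have a2 : 0 ≤ D * Real.log 2 * L := by positivity
    have a3 : (0 : ℝ) ≤ R := by linarith
    nlinarith
  have h8 : (1 + D * Real.log 2) * (L + R) ≤ σ * (r 0 * h) := by
    rw [div_mul_eq_mul_div, div_le_iff₀ hσ] at h5
    linarith
  have h9 : 0 < σ * (r 0 * h) := by
    refine lt_of_lt_of_le ?_ h8
    have : (0 : ℝ) < L + R := by linarith
    positivity
  have h10 : 0 < r 0 * h := by
    by_contra hn
    rw [not_lt] at hn
    nlinarith
  have h11 : θ * (r 0 * h) ≤ σ * (r 0 * h) := by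
    calc θ * (r 0 * h) = θ * r 0 * h := by ring
      _ ≤ _ := h6.trans (h7.trans h8)
  have h12 := le_of_mul_le_mul_right h11 h10
  linarith

end Pool.Agent.Helper15.Ru
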